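import Mathlib

/-!
# MP_7d0545_co: a component of an intersection without points of the stable intersection

In `ℝ⁴` there are an irreducible balanced complex `A` (a plane) and an irreducible balanced
two-dimensional fan `F` with nonempty stable intersection such that a connected component of
`|A| ∩ |F|` (a line) contains no point of the stable intersection.
-/

set_option autoImplicit false

open Module

namespace Pool.Agent.Results.MP_7d0545_co.IrreducibleFan

/-! ### Definitions -/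

section defs

variable {n : ℕ}

/-- A nonempty polyhedron given by finitely many inequalities with integer normal vectors. -/
def IsRatPolyhedron (P : Set (Fin n → ℝ)) : Prop :=
  P.Nonempty ∧ ∃ (m : ℕ) (a : Fin m → Fin n → ℤ) (b : Fin m → ℝ),
    P = {x | ∀ j, ∑ i, (a j i : ℝ) * x i ≤ b j}

/-- `F` is a nonempty face of `P`: the set of maximizers of a linear functional. -/
def IsFace (F P : Set (Fin n → ℝ)) : Prop :=
  F.Nonempty ∧ ∃ c : Fin n → ℝ, F = {x | x ∈ P ∧ ∀ y ∈ P, ∑ i, c i * y i ≤ ∑ i, c i * x i}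

/-- The dimension of the affine span. -/
noncomputable def dim (P : Set (Fin n → ℝ)) : ℕ := finrank ℝ (vectorSpan ℝ P)

/-- An integer vector as a real vector. -/
def toReal (v : Fin n → ℤ) : Fin n → ℝ := fun i => (v i : ℝ)

/-- `v` is a primitive integer normal vector of `T` pointing into `S`: it generates the lattice of
`S` modulo the lattice of `T` and points from `T` into `S`. -/
def IsPrimitiveNormal (T S : Set (Fin n → ℝ)) (v : Fin n → ℤ) : Prop :=
  toReal v ∈ vectorSpan ℝ S ∧ toReal v ∉ vectorSpan ℝ T ∧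
  (∀ z : Fin n → ℤ, toReal z ∈ vectorSpan ℝ S → ∃ m : ℤ, toReal (z - m • v) ∈ vectorSpan ℝ T) ∧
  ∃ x ∈ T, ∃ ε : ℝ, 0 < ε ∧ x + ε • toReal v ∈ S

/-- A finite rational polyhedral complex in `ℝⁿ` (a finite family of distinct cells, closed under
faces, any two cells meeting in a common face or not at all). -/
structure PolyComplex (n : ℕ) where
  /-- the index set of the cells -/
  ι : Type
  /-- it is finite -/
  fin : Fintype ι
  /-- the cells -/
  cell : ι → Set (Fin n → ℝ)
  inj : Function.Injective cell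
  rat : ∀ i, IsRatPolyhedron (cell i)
  face_mem : ∀ i F, IsFace F (cell i) → ∃ j, F = cell j
  inter : ∀ i j, (cell i ∩ cell j).Nonempty →
    IsFace (cell i ∩ cell j) (cell i) ∧ IsFace (cell i ∩ cell j) (cell j)

open Classical in
/-- The balancing condition for the weights `w` at all cells of dimension `d - 1`. -/
def IsBalanced (C : PolyComplex n) (d : ℕ) (w : C.ι → ℕ) : Prop :=
  ∀ t, dim (C.cell t) + 1 = d → ∃ v : C.ι → Fin n → ℤ,
    (∀ s, dim (C.cell s) = d → C.cell t ⊆ C.cell s →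
      IsPrimitiveNormal (C.cell t) (C.cell s) (v s)) ∧
    (letI := C.fin
      ∑ s, (if dim (C.cell s) = d ∧ C.cell t ⊆ C.cell s then (w s : ℝ) • toReal (v s) else 0))
      ∈ vectorSpan ℝ (C.cell t)

/-- A balanced polyhedral complex: pure of dimension `d`, positive weights, balanced. -/
structure BalancedComplex (n : ℕ) extends PolyComplex n where
  /-- the dimension -/
  d : ℕ
  /-- the weights (only those of the `d`-dimensional cells matter) -/
  w : ι → ℕ
  pure : ∀ i, ∃ j, cell i ⊆ cell j ∧ dim (cell j) = d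
  pos : ∀ i, dim (cell i) = d → 0 < w i
  balanced : IsBalanced toPolyComplex d w

/-- A balanced complex is irreducible if every choice of nonnegative integer weights on its cells
which satisfies the balancing condition is proportional to the given one. -/
def BalancedComplex.Irreducible (C : BalancedComplex n) : Prop :=
  ∀ w' : C.ι → ℕ, IsBalanced C.toPolyComplex C.d w' →
    ∃ c : ℚ, ∀ s, dim (C.cell s) = C.d → (w' s : ℚ) = c * C.w s

/-- The support. -/
def supp (C : BalancedComplex n) : Set (Fin n → ℝ) := ⋃ i, C.cell i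

/-- The support of the stable intersection of two balanced complexes. -/
def stable (C D : BalancedComplex n) : Set (Fin n → ℝ) :=
  {x | ∃ i j, vectorSpan ℝ (C.cell i) ⊔ vectorSpan ℝ (D.cell j) = ⊤ ∧ x ∈ C.cell i ∩ D.cell j}

end defs

/-! ### Primitive normals are unique modulo the ridge -/

section normals

variable {n : ℕ}

theorem toReal_add (v w : Fin n → ℤ) : toReal (v + w) = toReal v + toReal w := by
  funext i
  simp [toReal]

theorem toReal_sub (v w : Fin n → ℤ) : toReal (v - w) = toReal v - toReal w := by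
  funext i
  simp [toReal]

theorem toReal_zsmul (m : ℤ) (v : Fin n → ℤ) : toReal (m • v) = (m : ℝ) • toReal v := by
  funext i
  simp [toReal]

/-- the linear functional with coefficients `c` -/
def lin (c : Fin n → ℝ) : (Fin n → ℝ) →ₗ[ℝ] ℝ where
  toFun x := ∑ i, c i * x i
  map_add' x y := by simp [mul_add, Finset.sum_add_distrib]
  map_smul' a x := by
    simp only [Pi.smul_apply, smul_eq_mul, RingHom.id_apply, Finset.mul_sum]
    exact Finset.sum_congr rfl fun i _ => by ring

theorem lin_apply (c x : Fin n → ℝ) : lin c x = ∑ i, c i * x i := rfl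

theorem normal_unique {T S : Set (Fin n → ℝ)} (hT : IsFace T S) {v v0 : Fin n → ℤ}
    (hv : IsPrimitiveNormal T S v) (h0 : IsPrimitiveNormal T S v0) :
    toReal v - toReal v0 ∈ vectorSpan ℝ T := by
  obtain ⟨hvS, hvT, hvg, x, hx, ε, hε, hxv⟩ := hv
  obtain ⟨h0S, h0T, h0g, y, hy, δ, hδ, hyv⟩ := h0
  obtain ⟨-, c, hc⟩ := hT
  have hconst : ∀ a ∈ T, ∀ b ∈ T, lin c a = lin c b := by
    intro a ha b hb
    rw [hc] at ha hb
    exact le_antisymm (hb.2 a ha.1) (ha.2 b hb.1)
  have hker : vectorSpan ℝ T ≤ LinearMap.ker (lin c) := by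
    unfold vectorSpan
    rw [Submodule.span_le]
    rintro _ ⟨a, ha, b, hb, rfl⟩
    simp only [SetLike.mem_coe, LinearMap.mem_ker, vsub_eq_sub, map_sub]
    rw [hconst a ha b hb, sub_self]
  have key : ∀ (z : Fin n → ℤ) (a : Fin n → ℝ) (η : ℝ), toReal z ∉ vectorSpan ℝ T → a ∈ T → 0 < η →
      a + η • toReal z ∈ S → lin c (toReal z) < 0 := by
    intro z a η hz ha hη haz
    have ha' := ha
    rw [hc] at ha'
    have h1 : lin c (a + η • toReal z) ≤ lin c a := ha'.2 _ haz
    rw [map_add, map_smul, smul_eq_mul] at h1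
    have h2 : lin c (toReal z) ≤ 0 := by
      by_contra hcon
      push Not at hcon
      have := mul_pos hη hcon
      linarith
    rcases h2.lt_or_eq with h3 | h3
    · exact h3
    · exfalso
      apply hz
      have h4 : a + η • toReal z ∈ T := by
        rw [hc]
        refine ⟨haz, fun b hb => ?_⟩
        have h5 : lin c b ≤ lin c a := ha'.2 b hb
        have h6 : lin c (a + η • toReal z) = lin c a := by
          rw [map_add, map_smul, h3, smul_zero, add_zero]
        change lin c b ≤ lin c (a + η • toReal z)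
        rw [h6]
        exact h5
      have h5 := vsub_mem_vectorSpan ℝ h4 ha
      rw [vsub_eq_sub, add_sub_cancel_left] at h5
      have h6 := Submodule.smul_mem _ η⁻¹ h5
      rwa [smul_smul, inv_mul_cancel₀ hη.ne', one_smul] at h6
  have n1 := key v x ε hvT hx hε hxv
  have n2 := key v0 y δ h0T hy hδ hyv
  obtain ⟨m, hm⟩ := h0g v hvS
  obtain ⟨m', hm'⟩ := hvg v0 h0S
  rw [toReal_sub, toReal_zsmul] at hm hm'
  -- `(1 - m * m') v ∈ span T`
  have h1 : ((1 : ℝ) - m * m') • toReal v ∈ vectorSpan ℝ T := by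
    have := Submodule.add_mem _ hm (Submodule.smul_mem _ (m : ℝ) hm')
    convert this using 1
    module
  have h2 : m * m' = 1 := by
    by_contra hcon
    apply hvT
    have h3 : ((1 : ℝ) - m * m') ≠ 0 := by
      intro h
      apply hcon
      have : (m : ℝ) * m' = 1 := by linarith
      exact_mod_cast this
    have h6 := Submodule.smul_mem _ ((1 : ℝ) - m * m')⁻¹ h1
    rwa [smul_smul, inv_mul_cancel₀ h3, one_smul] at h6
  rcases Int.eq_one_or_neg_one_of_mul_eq_one h2 with rfl | rfl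
  · simpa using hm
  · exfalso
    have h3 := hker hm
    rw [LinearMap.mem_ker, map_sub, map_smul] at h3
    simp only [Int.cast_neg, Int.cast_one, smul_eq_mul] at h3
    linarith

end normals

/-! ### The tables -/

/-- first generator of each cone -/
def gP : Fin 22 → Fin 4 → ℤ :=
  ![![0, 0, 0, 0], ![0, 0, 0, 1], ![0, 0, 0, -1], ![-1, -1, 0, 1], ![-1, -1, 0, -1], ![1, 0, 0, 0], ![0, 1, 0, 0], ![0, 0, 1, 0], ![-1, -1, -1, 0], ![1, 1, 0, 0], ![0, 0, 0, 1], ![0, 0, 0, -1], ![0, 0, 0, 1], ![0, 0, 0, -1], ![0, 0, 0, 1], ![0, 0, 0, -1], ![-1, -1, 0, 1], ![-1, -1, 0, -1], ![-1, -1, 0, 1], ![-1, -1, 0, -1], ![1, 1, 0, 0], ![1, 1, 0, 0]]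
/-- second generator of each cone -/
def gQ : Fin 22 → Fin 4 → ℤ :=
  ![![0, 0, 0, 0], ![0, 0, 0, 0], ![0, 0, 0, 0], ![0, 0, 0, 0], ![0, 0, 0, 0], ![0, 0, 0, 0], ![0, 0, 0, 0], ![0, 0, 0, 0], ![0, 0, 0, 0], ![0, 0, 0, 0], ![1, 0, 0, 0], ![1, 0, 0, 0], ![0, 1, 0, 0], ![0, 1, 0, 0], ![-1, -1, 0, 1], ![-1, -1, 0, -1], ![0, 0, 1, 0], ![0, 0, 1, 0], ![-1, -1, -1, 0], ![-1, -1, -1, 0], ![0, 0, 1, 0], ![-1, -1, -1, 0]]
/-- columns of the unimodular completions -/
def tN : Fin 22 → Fin 4 → Fin 4 → ℤ :=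
  ![![![1, 0, 0, 0], ![0, 1, 0, 0], ![0, 0, 1, 0], ![0, 0, 0, 1]],
    ![![0, 1, 0, 0], ![0, 0, 1, 0], ![0, 0, 0, 1], ![1, 0, 0, 0]],
    ![![0, 1, 0, 0], ![0, 0, 1, 0], ![0, 0, 0, 1], ![-1, 0, 0, 0]],
    ![![-1, 1, 0, 0], ![-1, 0, 1, 0], ![0, 0, 0, 1], ![1, 0, 0, 0]],
    ![![-1, 1, 0, 0], ![-1, 0, 1, 0], ![0, 0, 0, 1], ![-1, 0, 0, 0]],
    ![![1, 0, 0, 0], ![0, 1, 0, 0], ![0, 0, 1, 0], ![0, 0, 0, 1]],
    ![![0, 1, 0, 0], ![1, 0, 0, 0], ![0, 0, 1, 0], ![0, 0, 0, 1]],
    ![![0, 1, 0, 0], ![0, 0, 1, 0], ![1, 0, 0, 0], ![0, 0, 0, 1]],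
    ![![-1, 1, 0, 0], ![-1, 0, 1, 0], ![-1, 0, 0, 0], ![0, 0, 0, 1]],
    ![![1, 1, 0, 0], ![1, 0, 0, 0], ![0, 0, 1, 0], ![0, 0, 0, 1]],
    ![![0, 1, 0, 0], ![0, 0, 1, 0], ![0, 0, 0, 1], ![1, 0, 0, 0]],
    ![![0, 1, 0, 0], ![0, 0, 1, 0], ![0, 0, 0, 1], ![-1, 0, 0, 0]],
    ![![0, 0, 1, 0], ![0, 1, 0, 0], ![0, 0, 0, 1], ![1, 0, 0, 0]],
    ![![0, 0, 1, 0], ![0, 1, 0, 0], ![0, 0, 0, 1], ![-1, 0, 0, 0]],
    ![![0, -1, 1, 0], ![0, -1, 0, 0], ![0, 0, 0, 1], ![1, 1, 0, 0]],
    ![![0, -1, 1, 0], ![0, -1, 0, 0], ![0, 0, 0, 1], ![-1, -1, 0, 0]],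
    ![![-1, 0, 1, 0], ![-1, 0, 0, 1], ![0, 1, 0, 0], ![1, 0, 0, 0]],
    ![![-1, 0, 1, 0], ![-1, 0, 0, 1], ![0, 1, 0, 0], ![-1, 0, 0, 0]],
    ![![-1, -1, 1, 0], ![-1, -1, 0, 1], ![0, -1, 0, 0], ![1, 0, 0, 0]],
    ![![-1, -1, 1, 0], ![-1, -1, 0, 1], ![0, -1, 0, 0], ![-1, 0, 0, 0]],
    ![![1, 0, 1, 0], ![1, 0, 0, 0], ![0, 1, 0, 0], ![0, 0, 0, 1]],
    ![![1, -1, 1, 0], ![1, -1, 0, 0], ![0, -1, 0, 0], ![0, 0, 0, 1]]]
/-- the inverse matrices -/
def tM : Fin 22 → Fin 4 → Fin 4 → ℤ :=
  ![![![1, 0, 0, 0], ![0, 1, 0, 0], ![0, 0, 1, 0], ![0, 0, 0, 1]],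
    ![![0, 0, 0, 1], ![1, 0, 0, 0], ![0, 1, 0, 0], ![0, 0, 1, 0]],
    ![![0, 0, 0, -1], ![1, 0, 0, 0], ![0, 1, 0, 0], ![0, 0, 1, 0]],
    ![![0, 0, 0, 1], ![1, 0, 0, 1], ![0, 1, 0, 1], ![0, 0, 1, 0]],
    ![![0, 0, 0, -1], ![1, 0, 0, -1], ![0, 1, 0, -1], ![0, 0, 1, 0]],
    ![![1, 0, 0, 0], ![0, 1, 0, 0], ![0, 0, 1, 0], ![0, 0, 0, 1]],
    ![![0, 1, 0, 0], ![1, 0, 0, 0], ![0, 0, 1, 0], ![0, 0, 0, 1]],
    ![![0, 0, 1, 0], ![1, 0, 0, 0], ![0, 1, 0, 0], ![0, 0, 0, 1]],
    ![![0, 0, -1, 0], ![1, 0, -1, 0], ![0, 1, -1, 0], ![0, 0, 0, 1]],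
    ![![0, 1, 0, 0], ![1, -1, 0, 0], ![0, 0, 1, 0], ![0, 0, 0, 1]],
    ![![0, 0, 0, 1], ![1, 0, 0, 0], ![0, 1, 0, 0], ![0, 0, 1, 0]],
    ![![0, 0, 0, -1], ![1, 0, 0, 0], ![0, 1, 0, 0], ![0, 0, 1, 0]],
    ![![0, 0, 0, 1], ![0, 1, 0, 0], ![1, 0, 0, 0], ![0, 0, 1, 0]],
    ![![0, 0, 0, -1], ![0, 1, 0, 0], ![1, 0, 0, 0], ![0, 0, 1, 0]],
    ![![0, 1, 0, 1], ![0, -1, 0, 0], ![1, -1, 0, 0], ![0, 0, 1, 0]],
    ![![0, 1, 0, -1], ![0, -1, 0, 0], ![1, -1, 0, 0], ![0, 0, 1, 0]],
    ![![0, 0, 0, 1], ![0, 0, 1, 0], ![1, 0, 0, 1], ![0, 1, 0, 1]],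
    ![![0, 0, 0, -1], ![0, 0, 1, 0], ![1, 0, 0, -1], ![0, 1, 0, -1]],
    ![![0, 0, 0, 1], ![0, 0, -1, 0], ![1, 0, -1, 1], ![0, 1, -1, 1]],
    ![![0, 0, 0, -1], ![0, 0, -1, 0], ![1, 0, -1, -1], ![0, 1, -1, -1]],
    ![![0, 1, 0, 0], ![0, 0, 1, 0], ![1, -1, 0, 0], ![0, 0, 0, 1]],
    ![![0, 1, -1, 0], ![0, 0, -1, 0], ![1, -1, 0, 0], ![0, 0, 0, 1]]]
/-- separating functionals, packed in base 5 -/
def tS : Fin 22 → ℕ :=
  ![18686961958114412494635486288878487343607935756368606616132812, 25159669469460777012973912141896441415014218252821001635742312, 12214257760703279788189872894214989156747694748527114868085812, 18686981152939856223783437562595377119431700259370803881756561, 18686964582815406150668583001449283057298939376974075365351561, 18272709377063286725289677589855159436433147400617752368477188, 18894087983457103520440050870753943898423295468474198659104692, 18689049078009875332357830518283995283709374519514059506773462, 17394508105339496963296768799615952033490407913843118334491561,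 17446273757305539181112617565056066268996055991316605885667192, 24745414241473972248154108419626597296182576340456193530664813, 11800005175457579097068179882156185024377453821879318481758313, 25366792847867789043304481700525381758172724408312639821292317, 12421383781851395892218553163054969486367601889735764772385817, 25159669468401983118393666610396046042155015927476914721679187, 12214257098957095675536415706467881119746241408472793578632687, 18689049104479722696689108675862694679235537799524313413022211, 18689032534355272623574254114716600617102776917127584896617211, 17394508131809344327662741426714187570904809683481210375506561, 17394491561684894276197235845758646047032866328855477953241561, 17448345022861811786468365283135167738481146666674430602479717, 16153800736166543381238678768006788777243994738714970123917142]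

/-- separating functional of two cells -/
def sep (i j : Fin 22) (t : Fin 4) : ℤ := ((tS i / 5 ^ (4 * (j : ℕ) + (t : ℕ)) % 5 : ℕ) : ℤ) - 2

/-- the dimension of the cells -/
def act (i : Fin 22) : ℕ := if (i : ℕ) = 0 then 0 else if (i : ℕ) < 10 then 1 else 2

/-- the weights -/
def wt (i : Fin 22) : ℕ := if (i : ℕ) < 10 then 0 else if (i : ℕ) < 20 then 1 else 2

/-- integer dot product -/
def idot (a b : Fin 4 → ℤ) : ℤ := a 0 * b 0 + a 1 * b 1 + a 2 * b 2 + a 3 * b 3

theorem tab_sep : ∀ i j, 0 ≤ idot (sep i j) (gP i) ∧ 0 ≤ idot (sep i j) (gQ i) ∧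
    idot (sep i j) (gP j) ≤ 0 ∧ idot (sep i j) (gQ j) ≤ 0 := by decide +kernel

/-- set a generator to zero unless the functional vanishes on it -/
def cut (l p : Fin 4 → ℤ) : Fin 4 → ℤ := if idot l p = 0 then p else 0

theorem tab_cut : ∀ i j, (cut (sep i j) (gP i) = cut (sep i j) (gP j) ∧
      cut (sep i j) (gQ i) = cut (sep i j) (gQ j)) ∨
    (cut (sep i j) (gP i) = cut (sep i j) (gQ j) ∧
      cut (sep i j) (gQ i) = cut (sep i j) (gP j)) := by decide +kernel

theorem tab_inj : ∀ i j, idot (sep i j) (gP i) = 0 → idot (sep i j) (gQ i) = 0 →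
    idot (sep i j) (gP j) = 0 → idot (sep i j) (gQ j) = 0 → i = j := by decide +kernel

theorem tab_P0 : ∀ i, ∃ j, gP j = gP i ∧ gQ j = 0 := by decide +kernel

theorem tab_Q0 : ∀ i, ∃ j, gP j = gQ i ∧ gQ j = 0 := by decide +kernel

theorem tab_00 : gP 0 = 0 ∧ gQ 0 = 0 := by decide +kernel

/-- `x = N (M x)` -/
theorem tab_NM : ∀ i, ∀ a b : Fin 4, tN i a 0 * tM i 0 b + tN i a 1 * tM i 1 b +
    tN i a 2 * tM i 2 b + tN i a 3 * tM i 3 b = if a = b then 1 else 0 := by decide +kernel

theorem tab_MN : ∀ i, ∀ a b : Fin 4, tM i a 0 * tN i 0 b + tM i a 1 * tN i 1 b +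
    tM i a 2 * tN i 2 b + tM i a 3 * tN i 3 b = if a = b then 1 else 0 := by decide +kernel

theorem tab_act : ∀ i, (act i = 0 → gP i = 0 ∧ gQ i = 0) ∧
    (act i = 1 → (∀ a, tN i a 0 = gP i a) ∧ gQ i = 0) ∧
    (act i = 2 → (∀ a, tN i a 0 = gP i a) ∧ (∀ a, tN i a 1 = gQ i a)) := by decide +kernel

/-! ### Cones -/

/-- the cone generated by two integer vectors -/
def cone (p q : Fin 4 → ℤ) : Set (Fin 4 → ℝ) :=
  {x | ∃ a b : ℝ, 0 ≤ a ∧ 0 ≤ b ∧ x = a • toReal p + b • toReal q}

theorem lin_toReal (l p : Fin 4 → ℤ) : lin (toReal l) (toReal p) = (idot l p : ℝ) := by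
  simp [lin_apply, toReal, idot, Fin.sum_univ_four]

theorem zero_mem_cone (p q : Fin 4 → ℤ) : (0 : Fin 4 → ℝ) ∈ cone p q :=
  ⟨0, 0, le_rfl, le_rfl, by simp⟩

theorem toReal_zero : toReal (0 : Fin 4 → ℤ) = 0 := by
  funext i
  simp [toReal]

theorem p_mem_cone (p q : Fin 4 → ℤ) : toReal p ∈ cone p q :=
  ⟨1, 0, by norm_num, le_rfl, by simp⟩

theorem q_mem_cone (p q : Fin 4 → ℤ) : toReal q ∈ cone p q :=
  ⟨0, 1, le_rfl, by norm_num, by simp⟩

theorem cone_swap (p q : Fin 4 → ℤ) : cone p q = cone q p := by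
  ext x
  constructor
  · rintro ⟨a, b, ha, hb, rfl⟩
    exact ⟨b, a, hb, ha, add_comm _ _⟩
  · rintro ⟨a, b, ha, hb, rfl⟩
    exact ⟨b, a, hb, ha, add_comm _ _⟩

theorem smul_mem_cone {p q : Fin 4 → ℤ} {x : Fin 4 → ℝ} (hx : x ∈ cone p q) {t : ℝ}
    (ht : 0 ≤ t) : t • x ∈ cone p q := by
  obtain ⟨a, b, ha, hb, rfl⟩ := hx
  exact ⟨t * a, t * b, mul_nonneg ht ha, mul_nonneg ht hb, by module⟩

open Classical in
/-- the points of a cone on which a nonpositive functional vanishes -/
theorem cone_zero {c : (Fin 4 → ℝ) →ₗ[ℝ] ℝ} {p q : Fin 4 → ℤ} (hp : c (toReal p) ≤ 0)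
    (hq : c (toReal q) ≤ 0) :
    {x | x ∈ cone p q ∧ c x = 0} = cone (if c (toReal p) = 0 then p else 0)
      (if c (toReal q) = 0 then q else 0) := by
  ext x
  constructor
  · rintro ⟨⟨a, b, ha, hb, rfl⟩, hx⟩
    rw [map_add, map_smul, map_smul, smul_eq_mul, smul_eq_mul] at hx
    have h1 : a * c (toReal p) ≤ 0 := mul_nonpos_of_nonneg_of_nonpos ha hp
    have h2 : b * c (toReal q) ≤ 0 := mul_nonpos_of_nonneg_of_nonpos hb hq
    have h3 : a * c (toReal p) = 0 := by linarith
    have h4 : b * c (toReal q) = 0 := by linarith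
    refine ⟨a, b, ha, hb, ?_⟩
    congr 1
    · split_ifs with h
      · rfl
      · rcases mul_eq_zero.1 h3 with h5 | h5
        · rw [h5, zero_smul, zero_smul]
        · exact absurd h5 h
    · split_ifs with h
      · rfl
      · rcases mul_eq_zero.1 h4 with h5 | h5
        · rw [h5, zero_smul, zero_smul]
        · exact absurd h5 h
  · rintro ⟨a, b, ha, hb, rfl⟩
    have hP : toReal (if c (toReal p) = 0 then p else 0)
        = (if c (toReal p) = 0 then (1 : ℝ) else 0) • toReal p := by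
      split_ifs
      · rw [one_smul]
      · rw [zero_smul, toReal_zero]
    have hQ : toReal (if c (toReal q) = 0 then q else 0)
        = (if c (toReal q) = 0 then (1 : ℝ) else 0) • toReal q := by
      split_ifs
      · rw [one_smul]
      · rw [zero_smul, toReal_zero]
    rw [hP, hQ]
    refine ⟨⟨a * (if c (toReal p) = 0 then (1 : ℝ) else 0),
      b * (if c (toReal q) = 0 then (1 : ℝ) else 0), ?_, ?_, ?_⟩, ?_⟩
    · split_ifs <;> simp [ha]
    · split_ifs <;> simp [hb]
    · module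
    · rw [map_add, map_smul, map_smul, map_smul, map_smul]
      simp only [smul_eq_mul]
      split_ifs with h1 h2 h2 <;> simp_all

theorem face_cone {F : Set (Fin 4 → ℝ)} {p q : Fin 4 → ℤ} (h : IsFace F (cone p q)) :
    ∃ p' q' : Fin 4 → ℤ, (p' = p ∨ p' = 0) ∧ (q' = q ∨ q' = 0) ∧ F = cone p' q' := by
  classical
  obtain ⟨⟨x, hx⟩, c, hc⟩ := h
  have hx' := hx
  rw [hc] at hx'
  have h0 : lin c x = 0 := by
    have h1 : lin c 0 ≤ lin c x := hx'.2 0 (zero_mem_cone p q)
    have h2 : lin c ((2 : ℝ) • x) ≤ lin c x := hx'.2 _ (smul_mem_cone hx'.1 (by norm_num))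
    rw [map_zero] at h1
    rw [map_smul, smul_eq_mul] at h2
    linarith
  have hall : ∀ y ∈ cone p q, lin c y ≤ 0 := by
    intro y hy
    have h1 : lin c y ≤ lin c x := hx'.2 y hy
    linarith
  have hp := hall _ (p_mem_cone p q)
  have hq := hall _ (q_mem_cone p q)
  refine ⟨if lin c (toReal p) = 0 then p else 0, if lin c (toReal q) = 0 then q else 0, ?_, ?_, ?_⟩
  · split_ifs <;> simp
  · split_ifs <;> simp
  · rw [← cone_zero hp hq, hc]
    ext y
    constructor
    · rintro ⟨hy, hy2⟩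
      refine ⟨hy, le_antisymm (hall y hy) ?_⟩
      have : lin c 0 ≤ lin c y := hy2 0 (zero_mem_cone p q)
      rwa [map_zero] at this
    · rintro ⟨hy, hy2⟩
      refine ⟨hy, fun z hz => ?_⟩
      change lin c z ≤ lin c y
      rw [hy2]
      exact hall z hz

theorem face_of_zero {c : Fin 4 → ℝ} {p q : Fin 4 → ℤ} (hall : ∀ y ∈ cone p q, lin c y ≤ 0) :
    IsFace {x | x ∈ cone p q ∧ lin c x = 0} (cone p q) := by
  refine ⟨⟨0, zero_mem_cone p q, map_zero _⟩, c, ?_⟩
  ext y
  constructor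
  · rintro ⟨hy, hy2⟩
    refine ⟨hy, fun z hz => ?_⟩
    change lin c z ≤ lin c y
    rw [hy2]
    exact hall z hz
  · rintro ⟨hy, hy2⟩
    refine ⟨hy, le_antisymm (hall y hy) ?_⟩
    have : lin c 0 ≤ lin c y := hy2 0 (zero_mem_cone p q)
    rwa [map_zero] at this

theorem vectorSpan_cone (p q : Fin 4 → ℤ) :
    vectorSpan ℝ (cone p q) = Submodule.span ℝ {toReal p, toReal q} := by
  rw [vectorSpan_eq_span_vsub_set_right ℝ (zero_mem_cone p q)]
  apply le_antisymm
  · rw [Submodule.span_le]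
    rintro _ ⟨x, ⟨a, b, -, -, rfl⟩, rfl⟩
    simp only [vsub_eq_sub, sub_zero, SetLike.mem_coe]
    exact Submodule.add_mem _ (Submodule.smul_mem _ _ (Submodule.subset_span (by simp)))
      (Submodule.smul_mem _ _ (Submodule.subset_span (by simp)))
  · rw [Submodule.span_le]
    rintro x (rfl | rfl)
    · exact Submodule.subset_span ⟨_, p_mem_cone p q, by simp⟩
    · exact Submodule.subset_span ⟨_, q_mem_cone p q, by simp⟩

/-! ### The fan -/

/-- the cells of the fan -/
def cellF (i : Fin 22) : Set (Fin 4 → ℝ) := cone (gP i) (gQ i)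

theorem sep_nonneg {i j : Fin 22} {x : Fin 4 → ℝ} (hx : x ∈ cellF i) :
    0 ≤ lin (toReal (sep i j)) x := by
  obtain ⟨a, b, ha, hb, rfl⟩ := hx
  obtain ⟨h1, h2, -, -⟩ := tab_sep i j
  rw [map_add, map_smul, map_smul, lin_toReal, lin_toReal, smul_eq_mul, smul_eq_mul]
  have h1' : (0 : ℝ) ≤ (idot (sep i j) (gP i) : ℝ) := by exact_mod_cast h1
  have h2' : (0 : ℝ) ≤ (idot (sep i j) (gQ i) : ℝ) := by exact_mod_cast h2
  positivity

theorem sep_nonpos {i j : Fin 22} {x : Fin 4 → ℝ} (hx : x ∈ cellF j) :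
    lin (toReal (sep i j)) x ≤ 0 := by
  obtain ⟨a, b, ha, hb, rfl⟩ := hx
  obtain ⟨-, -, h1, h2⟩ := tab_sep i j
  rw [map_add, map_smul, map_smul, lin_toReal, lin_toReal, smul_eq_mul, smul_eq_mul]
  have h1' : (idot (sep i j) (gP j) : ℝ) ≤ 0 := by exact_mod_cast h1
  have h2' : (idot (sep i j) (gQ j) : ℝ) ≤ 0 := by exact_mod_cast h2
  have := mul_nonpos_of_nonneg_of_nonpos ha h1'
  have := mul_nonpos_of_nonneg_of_nonpos hb h2'
  linarith

theorem cut_eq (l p : Fin 4 → ℤ) [Decidable (lin (toReal l) (toReal p) = 0)] :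
    (if lin (toReal l) (toReal p) = 0 then p else 0) = cut l p := by
  unfold cut
  have : lin (toReal l) (toReal p) = 0 ↔ idot l p = 0 := by
    rw [lin_toReal]
    exact_mod_cast Iff.rfl
  simp only [this]

theorem lin_neg (c x : Fin 4 → ℝ) : lin (-c) x = -lin c x := by
  simp [lin_apply]

/-- the zero set of the separator in the first cell -/
theorem zero_left (i j : Fin 22) : {x | x ∈ cellF i ∧ lin (toReal (sep i j)) x = 0}
    = cone (cut (sep i j) (gP i)) (cut (sep i j) (gQ i)) := by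
  classical
  have h := cone_zero (c := -lin (toReal (sep i j))) (p := gP i) (q := gQ i)
    (by
      have := sep_nonneg (i := i) (j := j) (p_mem_cone (gP i) (gQ i))
      simpa using this)
    (by
      have := sep_nonneg (i := i) (j := j) (q_mem_cone (gP i) (gQ i))
      simpa using this)
  simp only [LinearMap.neg_apply, neg_eq_zero] at h
  rw [cut_eq, cut_eq] at h
  exact h

theorem zero_right (i j : Fin 22) : {x | x ∈ cellF j ∧ lin (toReal (sep i j)) x = 0}
    = cone (cut (sep i j) (gP j)) (cut (sep i j) (gQ j)) := by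
  classical
  have h := cone_zero (c := lin (toReal (sep i j))) (p := gP j) (q := gQ j)
    (sep_nonpos (p_mem_cone (gP j) (gQ j))) (sep_nonpos (q_mem_cone (gP j) (gQ j)))
  rw [cut_eq, cut_eq] at h
  exact h

theorem cut_same (i j : Fin 22) : cone (cut (sep i j) (gP i)) (cut (sep i j) (gQ i))
    = cone (cut (sep i j) (gP j)) (cut (sep i j) (gQ j)) := by
  rcases tab_cut i j with ⟨h1, h2⟩ | ⟨h1, h2⟩
  · rw [h1, h2]
  · rw [h1, h2, cone_swap]

theorem inter_eq_left (i j : Fin 22) :
    cellF i ∩ cellF j = {x | x ∈ cellF i ∧ lin (toReal (sep i j)) x = 0} := by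
  ext x
  constructor
  · rintro ⟨h1, h2⟩
    exact ⟨h1, le_antisymm (sep_nonpos h2) (sep_nonneg h1)⟩
  · intro h
    refine ⟨h.1, ?_⟩
    rw [zero_left, cut_same, ← zero_right] at h
    exact h.1

theorem inter_eq_right (i j : Fin 22) :
    cellF i ∩ cellF j = {x | x ∈ cellF j ∧ lin (toReal (sep i j)) x = 0} := by
  rw [inter_eq_left, zero_left, cut_same, zero_right]

theorem inter_face (i j : Fin 22) :
    IsFace (cellF i ∩ cellF j) (cellF i) ∧ IsFace (cellF i ∩ cellF j) (cellF j) := by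
  constructor
  · rw [inter_eq_left]
    have := face_of_zero (c := -toReal (sep i j)) (p := gP i) (q := gQ i) (by
      intro y hy
      rw [lin_neg]
      have := sep_nonneg (i := i) (j := j) hy
      linarith)
    simp only [lin_neg, neg_eq_zero] at this
    exact this
  · rw [inter_eq_right]
    exact face_of_zero fun y hy => sep_nonpos hy

/-- integer criterion for containment of cells -/
def Sub (t s : Fin 22) : Prop := idot (sep t s) (gP t) = 0 ∧ idot (sep t s) (gQ t) = 0

instance (t s : Fin 22) : Decidable (Sub t s) := inferInstanceAs (Decidable (_ ∧ _))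

theorem subset_iff (t s : Fin 22) : cellF t ⊆ cellF s ↔ Sub t s := by
  constructor
  · intro h
    have h1 := sep_nonpos (i := t) (h (p_mem_cone (gP t) (gQ t)))
    have h2 := sep_nonpos (i := t) (h (q_mem_cone (gP t) (gQ t)))
    rw [lin_toReal] at h1 h2
    have h1' : idot (sep t s) (gP t) ≤ 0 := by exact_mod_cast h1
    have h2' : idot (sep t s) (gQ t) ≤ 0 := by exact_mod_cast h2
    obtain ⟨h3, h4, -, -⟩ := tab_sep t s
    exact ⟨le_antisymm h1' h3, le_antisymm h2' h4⟩
  · rintro ⟨h1, h2⟩ x hx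
    have : x ∈ cellF t ∩ cellF s := by
      rw [inter_eq_left, zero_left]
      unfold cut
      rw [if_pos h1, if_pos h2]
      exact hx
    exact this.2

theorem cellF_inj : Function.Injective cellF := by
  intro i j h
  have h1 : Sub i j := (subset_iff i j).1 h.le
  have h3 : 0 ≤ lin (toReal (sep i j)) (toReal (gP j)) := by
    apply sep_nonneg
    rw [h]
    exact p_mem_cone _ _
  have h4 : 0 ≤ lin (toReal (sep i j)) (toReal (gQ j)) := by
    apply sep_nonneg
    rw [h]
    exact q_mem_cone _ _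
  rw [lin_toReal] at h3 h4
  have h3' : 0 ≤ idot (sep i j) (gP j) := by exact_mod_cast h3
  have h4' : 0 ≤ idot (sep i j) (gQ j) := by exact_mod_cast h4
  obtain ⟨-, -, h5, h6⟩ := tab_sep i j
  exact tab_inj i j h1.1 h1.2 (le_antisymm h5 h3') (le_antisymm h6 h4')

theorem cellF_face (i : Fin 22) (F : Set (Fin 4 → ℝ)) (h : IsFace F (cellF i)) :
    ∃ j, F = cellF j := by
  obtain ⟨p', q', hp, hq, rfl⟩ := face_cone h
  rcases hp with rfl | rfl <;> rcases hq with rfl | rfl
  · exact ⟨i, rfl⟩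
  · obtain ⟨j, h1, h2⟩ := tab_P0 i
    exact ⟨j, by unfold cellF; rw [h1, h2]⟩
  · obtain ⟨j, h1, h2⟩ := tab_Q0 i
    exact ⟨j, by unfold cellF; rw [h1, h2, cone_swap]⟩
  · exact ⟨0, by unfold cellF; rw [tab_00.1, tab_00.2]⟩

/-! ### Coordinates adapted to a cell -/

/-- columns of the completions -/
def col (i : Fin 22) (t : Fin 4) : Fin 4 → ℤ := fun a => tN i a t

theorem idot_col (i : Fin 22) (t s : Fin 4) :
    idot (tM i t) (col i s) = if t = s then 1 else 0 := tab_MN i t s

theorem recon (i : Fin 22) (x : Fin 4 → ℝ) :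
    x = ∑ t, lin (toReal (tM i t)) x • toReal (col i t) := by
  funext a
  have h := fun b => tab_NM i a b
  have h' : ∀ b : Fin 4, (tN i a 0 * tM i 0 b + tN i a 1 * tM i 1 b +
    tN i a 2 * tM i 2 b + tN i a 3 * tM i 3 b : ℝ) = if a = b then 1 else 0 := by
    intro b
    have := congrArg (fun z : ℤ => (z : ℝ)) (h b)
    push_cast at this
    rw [this]
  have h3 : x a = ∑ b, (if a = b then (1 : ℝ) else 0) * x b := by simp
  rw [h3]
  simp only [← h', Finset.sum_apply, Pi.smul_apply, smul_eq_mul, lin_apply, toReal, col,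
    Fin.sum_univ_four]
  ring

theorem act_cases (i : Fin 22) : act i = 0 ∨ act i = 1 ∨ act i = 2 := by
  revert i
  decide

theorem P_eq {i : Fin 22} (h : act i ≠ 0) : gP i = col i 0 := by
  rcases act_cases i with h0 | h1 | h2
  · exact absurd h0 h
  · funext a
    exact (((tab_act i).2.1 h1).1 a).symm
  · funext a
    exact (((tab_act i).2.2 h2).1 a).symm

theorem Q_eq {i : Fin 22} (h : act i = 2) : gQ i = col i 1 := by
  funext a
  exact (((tab_act i).2.2 h).2 a).symm

theorem cell_char (i : Fin 22) (x : Fin 4 → ℝ) : x ∈ cellF i ↔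
    ∀ t : Fin 4, 0 ≤ lin (toReal (tM i t)) x ∧
      (act i ≤ (t : ℕ) → lin (toReal (tM i t)) x = 0) := by
  constructor
  · rintro ⟨a, b, ha, hb, rfl⟩ t
    rw [map_add, map_smul, map_smul, lin_toReal, lin_toReal, smul_eq_mul, smul_eq_mul]
    rcases act_cases i with h | h | h
    · obtain ⟨h1, h2⟩ := (tab_act i).1 h
      rw [h1, h2]
      simp [idot]
    · obtain ⟨-, h2⟩ := (tab_act i).2.1 h
      have h1 := P_eq (i := i) (by omega)
      rw [h1, h2, idot_col, h]
      refine ⟨?_, ?_⟩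
      · split_ifs <;> simp [idot, ha]
      · intro ht
        rw [if_neg]
        · simp [idot]
        · rintro rfl
          simp at ht
    · have h1 := P_eq (i := i) (by omega)
      have h2 := Q_eq h
      rw [h1, h2, idot_col, idot_col, h]
      refine ⟨?_, ?_⟩
      · split_ifs <;> simp [ha, hb]
        positivity
      · intro ht
        rw [if_neg, if_neg]
        · simp
        · rintro rfl
          simp at ht
        · rintro rfl
          simp at ht
  · intro hx
    have hr := recon i x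
    rw [Fin.sum_univ_four] at hr
    rcases act_cases i with h | h | h
    · rw [(hx 0).2 (by rw [h]; exact Nat.zero_le _), (hx 1).2 (by rw [h]; exact Nat.zero_le _),
        (hx 2).2 (by rw [h]; exact Nat.zero_le _), (hx 3).2 (by rw [h]; exact Nat.zero_le _)] at hr
      simp only [zero_smul, add_zero] at hr
      rw [hr]
      exact zero_mem_cone _ _
    · rw [(hx 1).2 (by rw [h]; decide), (hx 2).2 (by rw [h]; decide),
        (hx 3).2 (by rw [h]; decide)] at hr
      simp only [zero_smul, add_zero] at hr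
      refine ⟨_, 0, (hx 0).1, le_rfl, ?_⟩
      rw [P_eq (i := i) (by omega), zero_smul, add_zero]
      exact hr
    · rw [(hx 2).2 (by rw [h]; decide), (hx 3).2 (by rw [h]; decide)] at hr
      simp only [zero_smul, add_zero] at hr
      refine ⟨_, _, (hx 0).1, (hx 1).1, ?_⟩
      rw [P_eq (i := i) (by omega), Q_eq h]
      exact hr

theorem cellF_rat (i : Fin 22) : IsRatPolyhedron (cellF i) := by
  refine ⟨⟨0, zero_mem_cone _ _⟩, 8, fun j => if h : (j : ℕ) < 4 then -tM i ⟨j, h⟩ else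
    if act i ≤ (j : ℕ) - 4 then tM i ⟨(j : ℕ) - 4, by omega⟩ else 0, fun _ => 0, ?_⟩
  ext x
  rw [cell_char]
  constructor
  · intro hx j
    by_cases h : (j : ℕ) < 4
    · simp only [h, dif_pos]
      have := (hx ⟨j, h⟩).1
      rw [lin_apply] at this
      simp only [toReal] at this
      simp only [Pi.neg_apply, Int.cast_neg, neg_mul, Finset.sum_neg_distrib]
      linarith
    · simp only [h, dif_neg, not_false_iff]
      split_ifs with h2
      · have := (hx ⟨(j : ℕ) - 4, by omega⟩).2 h2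
        rw [lin_apply] at this
        simp only [toReal] at this
        exact this.le
      · simp
  · intro hx t
    have h1 := hx ⟨t, by omega⟩
    have h2 := hx ⟨(t : ℕ) + 4, by omega⟩
    have ht : (t : ℕ) < 4 := t.2
    simp only [ht, dif_pos, Pi.neg_apply, Int.cast_neg, neg_mul, Finset.sum_neg_distrib] at h1
    have h3 : ¬ ((t : ℕ) + 4 < 4) := by omega
    simp only [h3, dif_neg, not_false_iff, Nat.add_sub_cancel] at h2
    refine ⟨?_, fun hact => ?_⟩
    · rw [lin_apply]
      simp only [toReal]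
      linarith
    · rw [if_pos hact] at h2
      rw [lin_apply]
      simp only [toReal]
      linarith

/-! ### Dimensions -/

theorem indep {i : Fin 22} {t s : Fin 4} (hts : t ≠ s) {a b : ℝ}
    (h : a • toReal (col i t) + b • toReal (col i s) = 0) : a = 0 ∧ b = 0 := by
  have h1 := congrArg (lin (toReal (tM i t))) h
  have h2 := congrArg (lin (toReal (tM i s))) h
  rw [map_add, map_smul, map_smul, lin_toReal, lin_toReal, idot_col, idot_col, map_zero] at h1 h2
  rw [if_pos rfl, if_neg hts] at h1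
  rw [if_pos rfl, if_neg hts.symm] at h2
  simp at h1 h2
  exact ⟨h1, h2⟩

theorem dim_cellF (i : Fin 22) : dim (cellF i) = act i := by
  unfold dim cellF
  rw [vectorSpan_cone]
  rcases act_cases i with h | h | h
  · obtain ⟨h1, h2⟩ := (tab_act i).1 h
    rw [h1, h2, toReal_zero, h]
    simp
  · obtain ⟨-, h2⟩ := (tab_act i).2.1 h
    rw [P_eq (i := i) (by omega), h2, toReal_zero, h]
    have h3 : Submodule.span ℝ {toReal (col i 0), (0 : Fin 4 → ℝ)}
        = Submodule.span ℝ {toReal (col i 0)} := by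
      rw [Set.pair_comm]
      exact Submodule.span_insert_zero
    rw [h3]
    apply finrank_span_singleton
    intro h4
    have := (indep (i := i) (t := 0) (s := 1) (by decide) (a := 1) (b := 0) (by
      rw [h4]
      simp)).1
    norm_num at this
  · rw [P_eq (i := i) (by omega), Q_eq h, h]
    have hli : LinearIndependent ℝ ![toReal (col i 0), toReal (col i 1)] := by
      rw [LinearIndependent.pair_iff]
      intro a b hab
      exact indep (by decide) hab
    have := finrank_span_eq_card hli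
    rw [Matrix.range_cons, Matrix.range_cons, Matrix.range_empty, Set.union_empty] at this
    rw [Set.singleton_union] at this
    simpa using this

/-- the polyhedral complex -/
def fanC : PolyComplex 4 where
  ι := Fin 22
  fin := inferInstance
  cell := cellF
  inj := cellF_inj
  rat := cellF_rat
  face_mem := cellF_face
  inter := fun i j _ => inter_face i j

/-! ### Balancing -/

/-- the normal of the ray `t` in the two-dimensional cone `s` -/
def nrm (t s : Fin 22) : Fin 4 → ℤ := if gP s = gP t then gQ s else gP s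

theorem tab_nrm : ∀ t s, act t = 1 → act s = 2 → Sub t s →
    (gP t = gP s ∧ nrm t s = gQ s) ∨ (gP t = gQ s ∧ nrm t s = gP s) := by decide +kernel

theorem ray_span {t : Fin 22} (ht : act t = 1) :
    vectorSpan ℝ (cellF t) = Submodule.span ℝ {toReal (gP t)} := by
  unfold cellF
  rw [vectorSpan_cone, ((tab_act t).2.1 ht).2, toReal_zero, Set.pair_comm,
    Submodule.span_insert_zero]

theorem isNormal_aux {t s : Fin 22} (ht : act t = 1) {p q : Fin 4} (hpq : p ≠ q)
    (hp : gP t = col s p) (hspan : vectorSpan ℝ (cellF s)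
      = Submodule.span ℝ {toReal (col s p), toReal (col s q)})
    (hmem : toReal (col s q) ∈ cellF s) : IsPrimitiveNormal (cellF t) (cellF s) (col s q) := by
  rw [IsPrimitiveNormal, ray_span ht, hspan, hp]
  refine ⟨Submodule.subset_span (by simp), ?_, ?_, ?_⟩
  · rw [Submodule.mem_span_singleton]
    rintro ⟨a, ha⟩
    have := (indep (i := s) hpq (a := a) (b := -1) (by rw [ha]; module)).2
    norm_num at this
  · intro z hz
    rw [Submodule.mem_span_pair] at hz
    obtain ⟨a, b, hab⟩ := hz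
    have h1 := congrArg (lin (toReal (tM s q))) hab
    rw [map_add, map_smul, map_smul, lin_toReal, lin_toReal, lin_toReal, idot_col, idot_col,
      if_pos rfl, if_neg hpq.symm] at h1
    simp only [Int.cast_zero, Int.cast_one, smul_eq_mul, mul_one] at h1
    refine ⟨idot (tM s q) z, ?_⟩
    rw [Submodule.mem_span_singleton]
    refine ⟨a, ?_⟩
    rw [toReal_sub, toReal_zsmul, ← hab, ← h1]
    module
  · refine ⟨0, zero_mem_cone _ _, 1, one_pos, ?_⟩
    rw [zero_add, one_smul]
    exact hmem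

theorem isNormal {t s : Fin 22} (ht : act t = 1) (hs : act s = 2) (hsub : Sub t s) :
    IsPrimitiveNormal (cellF t) (cellF s) (nrm t s) := by
  have hP := P_eq (i := s) (by omega)
  have hQ := Q_eq hs
  rcases tab_nrm t s ht hs hsub with ⟨h1, h2⟩ | ⟨h1, h2⟩
  · rw [h2, hQ]
    apply isNormal_aux ht (p := 0) (q := 1) (by decide) (by rw [h1, hP])
    · unfold cellF
      rw [vectorSpan_cone, hP, hQ]
    · rw [← hQ]
      exact q_mem_cone _ _
  · rw [h2, hP]
    apply isNormal_aux ht (p := 1) (q := 0) (by decide) (by rw [h1, hQ])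
    · unfold cellF
      rw [vectorSpan_cone, hP, hQ, Set.pair_comm]
    · rw [← hP]
      exact p_mem_cone _ _

/-- the integer weighted sum of normals -/
def nsum (t : Fin 22) (w : Fin 22 → ℤ) (a : Fin 4) : ℤ :=
  ∑ s, if act s = 2 ∧ Sub t s then w s * nrm t s a else 0

theorem tab_bal : ∀ t, act t = 1 → ∃ c : Fin 7, ∀ a,
    nsum t (fun s => (wt s : ℤ)) a = ((c : ℕ) - 3 : ℤ) * gP t a := by decide +kernel

theorem tab_pure : ∀ i, ∃ j, Sub i j ∧ act j = 2 := by decide +kernel

theorem tab_pos : ∀ i, act i = 2 → 0 < wt i := by decide +kernel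

open Classical in
theorem sum_nrm (t : Fin 22) (w : Fin 22 → ℕ) :
    ∑ s, (if dim (cellF s) = 2 ∧ cellF t ⊆ cellF s then (w s : ℝ) • toReal (nrm t s) else 0)
      = toReal (nsum t fun s => (w s : ℤ)) := by
  funext a
  rw [Finset.sum_apply]
  simp only [toReal, nsum, Int.cast_sum]
  apply Finset.sum_congr rfl
  intro s _
  have hiff : (dim (cellF s) = 2 ∧ cellF t ⊆ cellF s) ↔ (act s = 2 ∧ Sub t s) := by
    rw [dim_cellF, subset_iff]
  by_cases h : act s = 2 ∧ Sub t s
  · rw [if_pos (hiff.2 h), if_pos h]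
    simp [toReal]
  · rw [if_neg (fun h' => h (hiff.1 h')), if_neg h]
    simp

open Classical in
/-- the balancing condition for the fan, spelled out -/
def RawBal (w : Fin 22 → ℕ) : Prop :=
  ∀ t : Fin 22, dim (cellF t) + 1 = 2 → ∃ v : Fin 22 → Fin 4 → ℤ,
    (∀ s : Fin 22, dim (cellF s) = 2 → cellF t ⊆ cellF s →
      IsPrimitiveNormal (cellF t) (cellF s) (v s)) ∧
    (∑ s : Fin 22, (if dim (cellF s) = 2 ∧ cellF t ⊆ cellF s then (w s : ℝ) • toReal (v s) else 0))
      ∈ vectorSpan ℝ (cellF t)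

theorem raw_iff (w : Fin 22 → ℕ) : IsBalanced fanC 2 w ↔ RawBal w := Iff.rfl

theorem fan_balanced : RawBal wt := by
  intro t ht
  have ht' : act t = 1 := by
    rw [dim_cellF] at ht
    omega
  refine ⟨nrm t, ?_, ?_⟩
  · intro s hs hsub
    apply isNormal ht'
    · rw [← dim_cellF]
      exact hs
    · exact (subset_iff t s).1 hsub
  · rw [sum_nrm t wt]
    obtain ⟨c, hc⟩ := tab_bal t ht'
    rw [ray_span ht', Submodule.mem_span_singleton]
    refine ⟨(((c : ℕ) - 3 : ℤ) : ℝ), ?_⟩
    funext a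
    have := hc a
    simp only [toReal, Pi.smul_apply, smul_eq_mul]
    rw [this]
    push_cast
    ring

theorem pure_raw (i : Fin 22) : ∃ j, cellF i ⊆ cellF j ∧ dim (cellF j) = 2 := by
  obtain ⟨j, h1, h2⟩ := tab_pure i
  exact ⟨j, (subset_iff i j).2 h1, (dim_cellF j).trans h2⟩

theorem pos_raw (i : Fin 22) (hi : dim (cellF i) = 2) : 0 < wt i := by
  apply tab_pos i
  rw [← dim_cellF]
  exact hi

/-- the fan with its weights -/
def fanB : BalancedComplex 4 where
  toPolyComplex := fanC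
  d := 2
  w := wt
  pure := pure_raw
  pos := pos_raw
  balanced := (raw_iff wt).2 fan_balanced

/-- coefficients of the relation given by `μ` at the ray `t` -/
def coef (t : Fin 22) (μ : Fin 4 → ℤ) (s : Fin 22) : ℤ :=
  if act s = 2 ∧ Sub t s then idot μ (nrm t s) else 0

theorem rel {w' : Fin 22 → ℕ} (h : RawBal w') (t : Fin 22) (μ : Fin 4 → ℤ)
    (ht : act t = 1) (hμ : idot μ (gP t) = 0) (a b c : Fin 22) (ea eb ec : ℤ)
    (hc : ∀ s, coef t μ s = (if s = a then ea else 0) + (if s = b then eb else 0)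
      + (if s = c then ec else 0)) :
    ea * w' a + eb * w' b + ec * w' c = 0 := by
  classical
  obtain ⟨v, hv, hsum⟩ := h t (by rw [dim_cellF, ht])
  have hsum' : ∑ s, (if dim (cellF s) = 2 ∧ cellF t ⊆ cellF s then (w' s : ℝ) • toReal (v s)
      else 0) ∈ vectorSpan ℝ (cellF t) := by
    convert hsum using 1
  have hdiff : ∑ s, (if dim (cellF s) = 2 ∧ cellF t ⊆ cellF s then
        (w' s : ℝ) • (toReal (v s) - toReal (nrm t s)) else 0) ∈ vectorSpan ℝ (cellF t) := by
    apply Submodule.sum_mem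
    intro s _
    split_ifs with hs
    · apply Submodule.smul_mem
      apply normal_unique (S := cellF s)
      · have := (inter_face t s).2
        rwa [Set.inter_eq_left.2 hs.2] at this
      · exact hv s hs.1 hs.2
      · exact isNormal ht ((dim_cellF s).symm.trans hs.1) ((subset_iff t s).1 hs.2)
    · exact Submodule.zero_mem _
  have hnrm : toReal (nsum t fun s => (w' s : ℤ)) ∈ vectorSpan ℝ (cellF t) := by
    rw [← sum_nrm]
    have := Submodule.sub_mem _ hsum' hdiff
    rw [← Finset.sum_sub_distrib] at this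
    convert this using 1
    apply Finset.sum_congr rfl
    intro s _
    split_ifs
    · module
    · simp
  rw [ray_span ht, Submodule.mem_span_singleton] at hnrm
  obtain ⟨y, hy⟩ := hnrm
  have h1 := congrArg (lin (toReal μ)) hy
  rw [map_smul, lin_toReal, lin_toReal, hμ] at h1
  simp only [Int.cast_zero, smul_zero] at h1
  have h2 : idot μ (nsum t fun s => (w' s : ℤ)) = 0 := by exact_mod_cast h1.symm
  have h3 : idot μ (nsum t fun s => (w' s : ℤ)) = ∑ s, coef t μ s * w' s := by
    simp only [idot, nsum, coef, Finset.mul_sum]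
    rw [← Finset.sum_add_distrib, ← Finset.sum_add_distrib, ← Finset.sum_add_distrib]
    apply Finset.sum_congr rfl
    intro s _
    split_ifs
    · ring
    · ring
  rw [h3] at h2
  simp only [hc, add_mul, ite_mul, zero_mul, Finset.sum_add_distrib, Finset.sum_ite_eq',
    Finset.mem_univ, if_true] at h2
  exact h2

theorem raw_irr (w' : Fin 22 → ℕ) (h' : RawBal w') :
    ∀ s : Fin 22, act s = 2 → w' s = w' 10 * wt s := by
  have r1 := rel h' 1 ![1, -1, 0, 0] (by decide) (by decide) 10 12 12 1 (-1) 0 (by decide +kernel)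
  have r2 := rel h' 1 ![1, 0, 0, 0] (by decide) (by decide) 10 14 14 1 (-1) 0 (by decide +kernel)
  have r3 := rel h' 2 ![1, -1, 0, 0] (by decide) (by decide) 11 13 13 1 (-1) 0 (by decide +kernel)
  have r4 := rel h' 2 ![1, 0, 0, 0] (by decide) (by decide) 11 15 15 1 (-1) 0 (by decide +kernel)
  have r5 := rel h' 5 ![0, 0, 0, 1] (by decide) (by decide) 10 11 11 1 (-1) 0 (by decide +kernel)
  have r6 := rel h' 3 ![1, 0, 0, 1] (by decide) (by decide) 14 18 18 1 (-1) 0 (by decide +kernel)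
  have r7 := rel h' 3 ![0, 0, 1, 0] (by decide) (by decide) 16 18 18 1 (-1) 0 (by decide +kernel)
  have r8 := rel h' 4 ![0, 0, 1, 0] (by decide) (by decide) 17 19 19 1 (-1) 0 (by decide +kernel)
  have r9 := rel h' 4 ![1, 0, 0, -1] (by decide) (by decide) 15 19 19 1 (-1) 0
    (by decide +kernel)
  have r10 := rel h' 7 ![1, 0, 0, 0] (by decide) (by decide) 20 16 17 1 (-1) (-1)
    (by decide +kernel)
  have r11 := rel h' 8 ![1, 0, -1, 0] (by decide) (by decide) 21 18 19 1 (-1) (-1)
    (by decide +kernel)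
  have e : w' 11 = w' 10 ∧ w' 12 = w' 10 ∧ w' 13 = w' 10 ∧ w' 14 = w' 10 ∧ w' 15 = w' 10 ∧
      w' 16 = w' 10 ∧ w' 17 = w' 10 ∧ w' 18 = w' 10 ∧ w' 19 = w' 10 ∧ w' 20 = w' 10 * 2 ∧
      w' 21 = w' 10 * 2 := by
    omega
  obtain ⟨e11, e12, e13, e14, e15, e16, e17, e18, e19, e20, e21⟩ := e
  intro s
  fin_cases s <;> intro hs <;> first
    | exact absurd hs (by decide)
    | (simp [wt]; done)
    | (simp [wt]; assumption)

theorem fan_irreducible : fanB.Irreducible := by
  intro w' h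
  have key := raw_irr w' h
  refine ⟨((show Fin 22 → ℕ from w') 10 : ℚ), ?_⟩
  intro s hs
  have h1 := key s ((dim_cellF s).symm.trans hs)
  have h2 : (w' s : ℚ) = (((show Fin 22 → ℕ from w') 10 * wt s : ℕ) : ℚ) := congrArg _ h1
  rw [h2, Nat.cast_mul]
  rfl

/-! ### The plane -/

/-- the plane -/
def PA : Set (Fin 4 → ℝ) := {x | x 0 - 2 * x 1 = 1 ∧ x 1 + x 2 = 0}

theorem base_mem : (![1, 0, 0, 0] : Fin 4 → ℝ) ∈ PA := by
  constructor <;> simp

theorem PA_rat : IsRatPolyhedron PA := by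
  refine ⟨⟨_, base_mem⟩, 4, ![![1, -2, 0, 0], ![-1, 2, 0, 0], ![0, 1, 1, 0], ![0, -1, -1, 0]],
    ![1, -1, 0, 0], ?_⟩
  ext x
  constructor
  · rintro ⟨h1, h2⟩ j
    fin_cases j <;> simp [Fin.sum_univ_four] <;> linarith
  · intro h
    have h0 := h 0
    have h1 := h 1
    have h2 := h 2
    have h3 := h 3
    simp [Fin.sum_univ_four] at h0 h1 h2 h3
    constructor <;> linarith

theorem PA_face (F : Set (Fin 4 → ℝ)) (h : IsFace F PA) : F = PA := by
  obtain ⟨⟨z, hz⟩, c, hc⟩ := h
  have hz' := hz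
  rw [hc] at hz'
  rw [hc]
  ext y
  refine ⟨fun h => h.1, fun hy => ⟨hy, fun w hw => ?_⟩⟩
  have h1 : lin c ((2 : ℝ) • z - y) ≤ lin c z := by
    apply hz'.2
    obtain ⟨⟨a1, a2⟩, b1, b2⟩ := And.intro hz'.1 hy
    constructor
    · simp only [Pi.sub_apply, Pi.smul_apply, smul_eq_mul]
      linarith
    · simp only [Pi.sub_apply, Pi.smul_apply, smul_eq_mul]
      linarith
  rw [map_sub, map_smul, smul_eq_mul] at h1
  have h2 : lin c w ≤ lin c z := hz'.2 w hw
  change lin c w ≤ lin c y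
  linarith

theorem PA_self : IsFace PA PA := by
  refine ⟨⟨_, base_mem⟩, 0, ?_⟩
  ext y
  simp

/-- first direction of the plane -/
def dir1 : Fin 4 → ℝ := ![2, 1, -1, 0]
/-- second direction of the plane -/
def dir2 : Fin 4 → ℝ := ![0, 0, 0, 1]

theorem PA_span : vectorSpan ℝ PA = Submodule.span ℝ {dir1, dir2} := by
  apply le_antisymm
  · unfold vectorSpan
    rw [Submodule.span_le]
    rintro _ ⟨a, ⟨ha1, ha2⟩, b, ⟨hb1, hb2⟩, rfl⟩
    rw [SetLike.mem_coe, Submodule.mem_span_pair]
    refine ⟨a 1 - b 1, a 3 - b 3, ?_⟩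
    funext i
    fin_cases i <;> simp [dir1, dir2] <;> linarith
  · rw [Submodule.span_le]
    have key : ∀ d : Fin 4 → ℝ, (![1, 0, 0, 0] : Fin 4 → ℝ) + d ∈ PA → d ∈ vectorSpan ℝ PA := by
      intro d hd
      have := vsub_mem_vectorSpan ℝ hd base_mem
      rwa [vsub_eq_sub, add_sub_cancel_left] at this
    rintro d (rfl | rfl)
    · apply key
      constructor <;> simp [dir1]
    · apply key
      constructor <;> simp [dir2]

theorem PA_dim : dim PA = 2 := by
  unfold dim
  rw [PA_span]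
  have hli : LinearIndependent ℝ ![dir1, dir2] := by
    rw [LinearIndependent.pair_iff]
    intro a b hab
    have h1 := congrFun hab 1
    have h3 := congrFun hab 3
    simp [dir1, dir2] at h1 h3
    exact ⟨h1, h3⟩
  have := finrank_span_eq_card hli
  rw [Matrix.range_cons, Matrix.range_cons, Matrix.range_empty, Set.union_empty] at this
  rw [Set.singleton_union] at this
  simpa using this

/-- the plane as a polyhedral complex -/
def planeC : PolyComplex 4 where
  ι := Unit
  fin := inferInstance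
  cell := fun _ => PA
  inj := fun _ _ _ => rfl
  rat := fun _ => PA_rat
  face_mem := fun _ F hF => ⟨(), PA_face F hF⟩
  inter := fun _ _ _ => by
    rw [Set.inter_self]
    exact ⟨PA_self, PA_self⟩

/-- the plane with weight one -/
def planeB : BalancedComplex 4 where
  toPolyComplex := planeC
  d := 2
  w := fun _ => 1
  pure := fun _ => ⟨(), subset_rfl, PA_dim⟩
  pos := fun _ _ => one_pos
  balanced := by
    intro t ht
    exfalso
    have h1 : dim PA + 1 = 2 := ht
    rw [PA_dim] at h1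
    omega

theorem plane_irreducible : planeB.Irreducible := by
  intro w' _
  refine ⟨((show Unit → ℕ from w') () : ℚ), ?_⟩
  intro s _
  have h1 : planeB.w s = 1 := rfl
  rw [h1, Nat.cast_one, mul_one]
  rfl

/-! ### The intersection -/

theorem mem_supp_fan (x : Fin 4 → ℝ) : x ∈ supp fanB ↔ ∃ i : Fin 22, x ∈ cellF i := by
  unfold supp
  rw [Set.mem_iUnion]
  exact Iff.rfl

theorem mem_supp_plane (x : Fin 4 → ℝ) : x ∈ supp planeB ↔ x ∈ PA := by
  unfold supp
  rw [Set.mem_iUnion]
  exact ⟨fun ⟨_, h⟩ => h, fun h => ⟨(), h⟩⟩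

theorem mem_stable (x : Fin 4 → ℝ) : x ∈ stable planeB fanB ↔
    ∃ j : Fin 22, vectorSpan ℝ PA ⊔ vectorSpan ℝ (cellF j) = ⊤ ∧ x ∈ PA ∩ cellF j :=
  ⟨fun ⟨_, j, h⟩ => ⟨j, h⟩, fun ⟨j, h⟩ => ⟨(), j, h⟩⟩

theorem cases_of_mem {y : Fin 4 → ℝ} (hA : y ∈ PA) (i : Fin 22) (hi : y ∈ cellF i) :
    (y 0 = 1 ∧ (i = 5 ∨ i = 10 ∨ i = 11)) ∨ y 0 = -1 := by
  obtain ⟨h1, h2⟩ := hA
  obtain ⟨a, b, ha, hb, rfl⟩ := hi
  simp only [Pi.add_apply, Pi.smul_apply, smul_eq_mul, toReal] at h1 h2 ⊢
  fin_cases i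
  all_goals first
    | (exfalso; norm_num [gP, gQ] at h1; done)
    | (exfalso; norm_num [gP, gQ] at h2; done)
    | (exfalso; norm_num [gP, gQ] at h1 h2; linarith)
    | (left; refine ⟨?_, by decide⟩; norm_num [gP, gQ] at h1 h2 ⊢; linarith)
    | (right; norm_num [gP, gQ] at h1 h2 ⊢; linarith)

theorem transversal_empty {j : Fin 22} (hj : j = 5 ∨ j = 10 ∨ j = 11) :
    vectorSpan ℝ PA ⊔ vectorSpan ℝ (cellF j) ≠ ⊤ := by
  intro htop
  have hker : vectorSpan ℝ PA ⊔ vectorSpan ℝ (cellF j)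
      ≤ LinearMap.ker (lin (toReal ![0, 1, 1, 0])) := by
    rw [PA_span]
    unfold cellF
    rw [vectorSpan_cone]
    apply sup_le
    · rw [Submodule.span_le]
      rintro d (rfl | rfl)
      · rw [SetLike.mem_coe, LinearMap.mem_ker, lin_apply]
        simp [toReal, dir1, Fin.sum_univ_four]
      · rw [SetLike.mem_coe, LinearMap.mem_ker, lin_apply]
        simp [toReal, dir2, Fin.sum_univ_four]
    · rw [Submodule.span_le]
      rintro d (rfl | rfl)
      · rw [SetLike.mem_coe, LinearMap.mem_ker, lin_toReal]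
        rcases hj with rfl | rfl | rfl <;> simp [idot, gP]
      · rw [SetLike.mem_coe, LinearMap.mem_ker, lin_toReal]
        rcases hj with rfl | rfl | rfl <;> simp [idot, gQ]
  rw [htop, top_le_iff] at hker
  have h1 : toReal ![0, 1, 0, 0] ∈ LinearMap.ker (lin (toReal ![0, 1, 1, 0])) := by
    rw [hker]
    exact Submodule.mem_top
  rw [LinearMap.mem_ker, lin_toReal] at h1
  simp [idot] at h1

theorem transversal_ne : vectorSpan ℝ PA ⊔ vectorSpan ℝ (cellF 16) = ⊤ := by
  rw [eq_top_iff]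
  rintro x -
  rw [PA_span]
  unfold cellF
  rw [vectorSpan_cone, Submodule.mem_sup]
  refine ⟨(x 0 - x 1) • dir1 + (x 3 - (x 0 - 2 * x 1)) • dir2, ?_,
    (x 0 - 2 * x 1) • toReal (gP 16) + (x 2 + (x 0 - x 1)) • toReal (gQ 16), ?_, ?_⟩
  · rw [Submodule.mem_span_pair]
    exact ⟨_, _, rfl⟩
  · rw [Submodule.mem_span_pair]
    exact ⟨_, _, rfl⟩
  · funext i
    fin_cases i <;> simp [dir1, dir2, toReal, gP, gQ] <;> ring

theorem stable_nonempty : (stable planeB fanB).Nonempty := by
  refine ⟨![-1, -1, 1, 1], ?_⟩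
  rw [mem_stable]
  refine ⟨16, transversal_ne, ?_, ?_⟩
  · refine ⟨?_, ?_⟩
    · simp
      norm_num
    · simp
  · refine ⟨1, 1, zero_le_one, zero_le_one, ?_⟩
    funext i
    fin_cases i <;> simp [toReal, gP, gQ]

theorem base_supp : (![1, 0, 0, 0] : Fin 4 → ℝ) ∈ supp planeB ∩ supp fanB := by
  refine ⟨(mem_supp_plane _).2 base_mem, (mem_supp_fan _).2 ⟨5, 1, 0, zero_le_one, le_rfl, ?_⟩⟩
  funext i
  fin_cases i <;> simp [toReal, gP, gQ]

theorem component_first {y : Fin 4 → ℝ}
    (hy : y ∈ connectedComponentIn (supp planeB ∩ supp fanB) ![1, 0, 0, 0]) : y 0 = 1 := by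
  have hsub := connectedComponentIn_subset (supp planeB ∩ supp fanB) (![1, 0, 0, 0] : Fin 4 → ℝ)
  have hval : ∀ z ∈ connectedComponentIn (supp planeB ∩ supp fanB) (![1, 0, 0, 0] : Fin 4 → ℝ),
      z 0 = 1 ∨ z 0 = -1 := by
    intro z hz
    obtain ⟨h1, h2⟩ := hsub hz
    rw [mem_supp_plane] at h1
    rw [mem_supp_fan] at h2
    obtain ⟨i, hi⟩ := h2
    rcases cases_of_mem h1 i hi with h | h
    · exact Or.inl h.1
    · exact Or.inr h
  rcases hval y hy with h | h
  · exact h
  · exfalso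
    have hpre : IsPreconnected ((fun z : Fin 4 → ℝ => z 0) ''
        connectedComponentIn (supp planeB ∩ supp fanB) (![1, 0, 0, 0] : Fin 4 → ℝ)) :=
      isPreconnected_connectedComponentIn.image _ (continuous_apply 0).continuousOn
    have hIcc := hpre.Icc_subset (a := -1) (b := 1) ⟨y, hy, h⟩
      ⟨_, mem_connectedComponentIn base_supp, by simp⟩
    obtain ⟨z, hz, hz0⟩ := hIcc (show (0 : ℝ) ∈ Set.Icc (-1) 1 by constructor <;> norm_num)
    have hz0' : z 0 = 0 := hz0
    rcases hval z hz with h' | h' <;> rw [hz0'] at h' <;> norm_num at h'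

theorem result : ∃ A F : BalancedComplex 4, A.Irreducible ∧ F.Irreducible ∧
    (stable A F).Nonempty ∧ ∃ x ∈ supp A ∩ supp F,
      connectedComponentIn (supp A ∩ supp F) x ∩ stable A F = ∅ := by
  refine ⟨planeB, fanB, plane_irreducible, fan_irreducible, stable_nonempty,
    ![1, 0, 0, 0], base_supp, ?_⟩
  rw [Set.eq_empty_iff_forall_notMem]
  rintro y ⟨hy, hst⟩
  have h0 := component_first hy
  rw [mem_stable] at hst
  obtain ⟨j, htr, hA, hF⟩ := hst
  rcases cases_of_mem hA j hF with h | h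
  · exact transversal_empty h.2 htr
  · rw [h0] at h
    norm_num at h

end Pool.Agent.Results.MP_7d0545_co.IrreducibleFan
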